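import Pool.Agent.H65.OVN.MV

/-!
# OVN: the height is the position in the box
-/

set_option autoImplicit false

namespace Pool.OVN

open Finset Real MvPolynomial
open Pool.Agent.H49.Ent Pool.Agent.H32.Dense Pool.STK

namespace Hgt

variable {n : ℕ}

theorem floor_floor (k : ℕ) (v : ℝ) : ⌊(⌊(2 : ℝ) ^ k * v⌋ : ℝ) / 2 ^ k⌋ = ⌊v⌋ := by
  have h2 : (0 : ℝ) < 2 ^ k := by positivity
  rw [Int.floor_eq_iff]
  constructor
  · rw [le_div_iff₀ h2]
    have h1 : (⌊v⌋ * 2 ^ k : ℤ) ≤ ⌊(2 : ℝ) ^ k * v⌋ := by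
      rw [Int.le_floor]
      push_cast
      have := Int.floor_le v
      nlinarith
    exact_mod_cast h1
  · rw [div_lt_iff₀ h2]
    have h1 := Int.floor_le ((2 : ℝ) ^ k * v)
    have h3 := Int.lt_floor_add_one v
    nlinarith

theorem floor_ediv (k : ℕ) (v : ℝ) : ⌊(2 : ℝ) ^ k * v⌋ / 2 ^ k = ⌊v⌋ := by
  have h2 : (0 : ℝ) < 2 ^ k := by positivity
  have h2' : (0 : ℤ) < 2 ^ k := by positivity
  refine le_antisymm ?_ ?_
  · rw [Int.le_floor]
    have h1 : ⌊(2 : ℝ) ^ k * v⌋ / 2 ^ k * 2 ^ k ≤ ⌊(2 : ℝ) ^ k * v⌋ := Int.ediv_mul_le _ h2'.ne'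
    have h3 : ((⌊(2 : ℝ) ^ k * v⌋ / 2 ^ k : ℤ) : ℝ) * 2 ^ k ≤ 2 ^ k * v := by
      refine le_trans ?_ (Int.floor_le _)
      exact_mod_cast h1
    nlinarith
  · rw [Int.le_ediv_iff_mul_le h2', Int.le_floor]
    push_cast
    have := Int.floor_le v
    nlinarith

theorem hz_digits (P X : ℕ) (g : MvPolynomial (Fin n) ℝ) (s : Fin n →₀ ℕ) :
    hz (P + X) g s = 2 ^ X * hz P g s + hz (P + X) g s % 2 ^ X := by
  have h1 : hz (P + X) g s / 2 ^ X = hz P g s := by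
    unfold hz
    have h2 : (2 : ℝ) ^ (P + X) * coeff s g = 2 ^ X * (2 ^ P * coeff s g) := by
      rw [pow_add]
      ring
    rw [h2]
    exact floor_ediv _ _
  rw [← h1]
  exact (Int.mul_ediv_add_emod _ _).symm

theorem eval_pul (a : ℕ) (c : Fin n → ℤ) (G : MvPolynomial (Fin n) ℝ) (z : Fin n → ℝ) :
    eval z (pul a c G) = eval (fun j => (c j : ℝ) / 2 ^ a + 1 / 2 ^ a * z j) G := by
  unfold pul
  rw [← coe_aeval_eq_eval, ← coe_aeval_eq_eval, RingHom.coe_coe, RingHom.coe_coe, aeval_bind₁]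
  congr 2
  funext j
  simp

theorem totalDegree_pul (a : ℕ) (c : Fin n → ℤ) (G : MvPolynomial (Fin n) ℝ) :
    (pul a c G).totalDegree ≤ G.totalDegree := by
  classical
  unfold pul
  conv_lhs => rw [G.as_sum, map_sum]
  refine (totalDegree_finsetSum _ _).trans (Finset.sup_le fun s hs => ?_)
  rw [bind₁_monomial]
  refine (totalDegree_mul _ _).trans ?_
  rw [totalDegree_C, zero_add]
  refine (totalDegree_finsetProd _ _).trans ?_
  refine le_trans ?_ (le_totalDegree hs)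
  rw [Finsupp.sum]
  refine Finset.sum_le_sum fun i _ => ?_
  refine (totalDegree_pow _ _).trans ?_
  have h1 : (C ((c i : ℝ) / 2 ^ a) + C (1 / 2 ^ a) * X i :
      MvPolynomial (Fin n) ℝ).totalDegree ≤ 1 := by
    refine (totalDegree_add _ _).trans (max_le ?_ ?_)
    · rw [totalDegree_C]
      exact Nat.zero_le _
    · refine (totalDegree_mul _ _).trans ?_
      rw [totalDegree_C, totalDegree_X]
  nlinarith

/-- The value of a polynomial of degree at most `K`. -/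
theorem eval_mon (K : ℕ) (g : MvPolynomial (Fin n) ℝ) (hg : g.totalDegree ≤ K) (z : Fin n → ℝ) :
    eval z g = coeff 0 g + ∑ s : Pool.M5.Mon n K,
      coeff (Finsupp.equivFunOnFinite.symm (s : Fin n → ℕ)) g * Pool.M5.mono (s : Fin n → ℕ) z := by
  classical
  have h0 : (0 : Fin n →₀ ℕ) ∉ (Pool.M5.Mon n K).image (Finsupp.equivFunOnFinite.symm) := by
    intro h
    rw [Finset.mem_image] at h
    obtain ⟨s, hs, h⟩ := h
    unfold Pool.M5.Mon at hs
    rw [Finset.mem_filter] at hs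
    have h1 : s = 0 := by
      have := congrArg (fun f : Fin n →₀ ℕ => (f : Fin n → ℕ)) h
      simpa using this
    rw [h1] at hs
    simp at hs
  have h1 : g.support ⊆ insert 0 ((Pool.M5.Mon n K).image (Finsupp.equivFunOnFinite.symm)) := by
    intro s hs
    rw [Finset.mem_insert, Finset.mem_image]
    by_cases c : s = 0
    · exact Or.inl c
    right
    refine ⟨s, ?_, by simp⟩
    have h2 := (le_totalDegree hs).trans hg
    rw [Finsupp.sum_fintype _ _ (fun _ => rfl)] at h2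
    unfold Pool.M5.Mon
    rw [Finset.mem_filter, Fintype.mem_piFinset]
    refine ⟨fun j => ?_, ?_, h2⟩
    · rw [Finset.mem_range]
      have h3 : s j ≤ ∑ j, s j := Finset.single_le_sum (fun _ _ => Nat.zero_le _) (Finset.mem_univ j)
      omega
    · by_contra h3
      push Not at h3
      have h4 : ∑ j, s j = 0 := by omega
      rw [Finset.sum_eq_zero_iff] at h4
      exact c (Finsupp.ext fun j => h4 j (Finset.mem_univ j))
  rw [eval_eq', Finset.sum_subset h1, Finset.sum_insert h0, Finset.sum_image]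
  · congr 1
    · simp
    · rw [← Finset.sum_coe_sort]
      refine Finset.sum_congr rfl fun s _ => ?_
      unfold Pool.M5.mono
      simp
  · intro s _ t _ h
    exact Finsupp.equivFunOnFinite.symm.injective h
  · intro s _ hs
    rw [notMem_support_iff.1 hs, zero_mul]

theorem mono_mem {K : ℕ} (s : Pool.M5.Mon n K) {z : Fin n → ℝ} (hz : ∀ j, 0 ≤ z j ∧ z j ≤ 1) :
    0 ≤ Pool.M5.mono (s : Fin n → ℕ) z ∧ Pool.M5.mono (s : Fin n → ℕ) z ≤ 1 := by
  unfold Pool.M5.mono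
  constructor
  · exact Finset.prod_nonneg fun j _ => pow_nonneg (hz j).1 _
  · exact Finset.prod_le_one (fun j _ => pow_nonneg (hz j).1 _)
      fun j _ => pow_le_one₀ (hz j).1 (hz j).2

/-- The coordinates of the point in the cell. -/
noncomputable def zc (k : ℕ) (r : Fin n → ℤ) (j : Fin n) : ℝ := Int.fract ((r j : ℝ) / 2 ^ k)

/-- The known part of the height. -/
noncomputable def Ph (K X k : ℕ) (h : (Fin n →₀ ℕ) → ℤ) (r : Fin n → ℤ) : ℝ :=
  2 ^ X * (h 0 + ∑ s : Pool.M5.Mon n K, (h (Finsupp.equivFunOnFinite.symm (s : Fin n → ℕ)) : ℝ) *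
    Pool.M5.mono (s : Fin n → ℕ) (zc k r))

end Hgt

open Hgt

/-- **Row HGT.** -/
theorem hgt_thm : HGTStmt := by
  classical
  intro n K D
  refine ⟨⌈|D| * n⌉₊ + (Fintype.card (Pool.M5.Mon n K)) + 5, ?_⟩
  intro d a₀ a P X hd haa haP
  refine ⟨fun c => ⌊Ph K X (P + X - a) c.1.2.2 c.2⌋, ?_⟩
  intro ω hω
  have hPa : a₀ ≤ P + X := by omega
  have h2 : (0 : ℝ) < 2 ^ (P + X) := by positivity
  obtain ⟨g, hg⟩ : ∃ g, g = d.ger a ω := ⟨_, rfl⟩
  obtain ⟨z, hz0⟩ : ∃ z : Fin n → ℝ, z = zc (P + X - a) (d.cel (P + X) ω) := ⟨_, rfl⟩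
  have hz1 : ∀ j, 0 ≤ z j ∧ z j ≤ 1 := fun j => by
    rw [hz0]
    exact ⟨Int.fract_nonneg _, (Int.fract_lt_one _).le⟩
  -- the grid point
  obtain ⟨y', hy'⟩ : ∃ y' : Fin n → ℝ, y' = fun j => (d.cel (P + X) ω j : ℝ) / 2 ^ (P + X) :=
    ⟨_, rfl⟩
  have hyy : ∀ j, |y' j - d.y ω j| ≤ 1 / 2 ^ (P + X) := by
    intro j
    have h3 : d.cel (P + X) ω j = ⌊(2 : ℝ) ^ (P + X) * d.y ω j⌋ := rfl
    rw [hy']
    simp only
    rw [h3]
    have h4 := Int.floor_le ((2 : ℝ) ^ (P + X) * d.y ω j)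
    have h5 := Int.lt_floor_add_one ((2 : ℝ) ^ (P + X) * d.y ω j)
    have h6 : (⌊(2 : ℝ) ^ (P + X) * d.y ω j⌋ : ℝ) / 2 ^ (P + X) - d.y ω j =
        ((⌊(2 : ℝ) ^ (P + X) * d.y ω j⌋ : ℝ) - 2 ^ (P + X) * d.y ω j) / 2 ^ (P + X) := by
      field_simp
    rw [h6, abs_div, abs_of_pos h2]
    refine div_le_div_of_nonneg_right ?_ h2.le
    rw [abs_le]
    constructor <;> linarith
  have hger : eval z g = eval y' (d.G (d.L ω)) := by
    rw [hg]
    unfold SDat.ger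
    rw [eval_pul]
    congr 2
    funext j
    have h3 : d.cel (P + X) ω j = ⌊(2 : ℝ) ^ (P + X) * d.y ω j⌋ := rfl
    have h4 : d.cel a ω j = ⌊(2 : ℝ) ^ a * d.y ω j⌋ := rfl
    have h5 : (2 : ℝ) ^ (P + X) = 2 ^ (P + X - a) * 2 ^ a := by
      rw [← pow_add]
      congr 1
      omega
    have h6 : ⌊(d.cel (P + X) ω j : ℝ) / 2 ^ (P + X - a)⌋ = d.cel a ω j := by
      rw [h3, h4, h5, mul_assoc]
      exact floor_floor _ _
    have h7 : z j = (d.cel (P + X) ω j : ℝ) / 2 ^ (P + X - a) - d.cel a ω j := by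
      rw [hz0]
      unfold zc Int.fract
      rw [h6]
    rw [h7, hy']
    simp only
    rw [h5]
    have h8 : (0 : ℝ) < 2 ^ a := by positivity
    have h9 : (0 : ℝ) < 2 ^ (P + X - a) := by positivity
    field_simp
    ring
  have hgd : g.totalDegree ≤ K := by
    rw [hg]
    exact (totalDegree_pul _ _ _).trans (hd.deg _)
  -- the digits of the coefficients
  have hdig : ∀ s : Fin n →₀ ℕ, ∃ t : ℝ, 0 ≤ t ∧ t ≤ 1 ∧
      2 ^ (P + X) * coeff s g = 2 ^ X * (hz P g s : ℝ) + ((hz (P + X) g s % 2 ^ X : ℤ) : ℝ) + t := by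
    intro s
    refine ⟨Int.fract (2 ^ (P + X) * coeff s g), Int.fract_nonneg _, (Int.fract_lt_one _).le, ?_⟩
    have h3 := hz_digits P X g s
    have h4 : ((hz (P + X) g s : ℤ) : ℝ) =
        2 ^ X * (hz P g s : ℝ) + ((hz (P + X) g s % 2 ^ X : ℤ) : ℝ) := by
      have h5 := congrArg (fun i : ℤ => (i : ℝ)) h3
      simp only [Int.cast_add, Int.cast_mul, Int.cast_pow, Int.cast_ofNat] at h5
      exact h5
    rw [← h4]
    unfold hz
    exact (Int.floor_add_fract _).symm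
  choose t ht0 ht1 ht using hdig
  obtain ⟨Av, hAv⟩ : ∃ Av : ℝ, Av = Ph K X (P + X - a) (hz P g) (d.cel (P + X) ω) := ⟨_, rfl⟩
  obtain ⟨Bv, hBv⟩ : ∃ Bv : ℝ, Bv = ∑ s : Pool.M5.Mon n K,
      ((hz (P + X) g (Finsupp.equivFunOnFinite.symm (s : Fin n → ℕ)) % 2 ^ X : ℤ) : ℝ) *
        Pool.M5.mono (s : Fin n → ℕ) z := ⟨_, rfl⟩
  obtain ⟨Tv, hTv⟩ : ∃ Tv : ℝ, Tv = t 0 + ∑ s : Pool.M5.Mon n K,
      t (Finsupp.equivFunOnFinite.symm (s : Fin n → ℕ)) *
        Pool.M5.mono (s : Fin n → ℕ) z := ⟨_, rfl⟩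
  have hT0 : 0 ≤ Tv := by
    rw [hTv]
    exact add_nonneg (ht0 _) (Finset.sum_nonneg fun s _ => mul_nonneg (ht0 _) (mono_mem s hz1).1)
  have hT1 : Tv ≤ 1 + Fintype.card (Pool.M5.Mon n K) := by
    rw [hTv]
    refine add_le_add (ht1 _) ?_
    have h3 : ∑ s : Pool.M5.Mon n K, t (Finsupp.equivFunOnFinite.symm (s : Fin n → ℕ)) *
        Pool.M5.mono (s : Fin n → ℕ) z ≤ ∑ _s : Pool.M5.Mon n K, (1 : ℝ) := by
      refine Finset.sum_le_sum fun s _ => ?_
      have h4 := mono_mem s hz1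
      exact mul_le_one₀ (ht1 _) h4.1 h4.2
    refine h3.trans (le_of_eq ?_)
    rw [Finset.sum_const, Finset.card_univ, nsmul_eq_mul, mul_one]
  have hval : 2 ^ (P + X) * eval z g =
      Av + Bv + ((hz (P + X) g 0 % 2 ^ X : ℤ) : ℝ) + Tv := by
    rw [eval_mon K g hgd z, mul_add, ht 0, Finset.mul_sum]
    have h3 : ∀ s : Pool.M5.Mon n K, 2 ^ (P + X) *
        (coeff (Finsupp.equivFunOnFinite.symm (s : Fin n → ℕ)) g *
          Pool.M5.mono (s : Fin n → ℕ) z) =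
        2 ^ X * ((hz P g (Finsupp.equivFunOnFinite.symm (s : Fin n → ℕ)) : ℝ) *
          Pool.M5.mono (s : Fin n → ℕ) z) +
        ((hz (P + X) g (Finsupp.equivFunOnFinite.symm (s : Fin n → ℕ)) % 2 ^ X : ℤ) : ℝ) *
          Pool.M5.mono (s : Fin n → ℕ) z +
        t (Finsupp.equivFunOnFinite.symm (s : Fin n → ℕ)) * Pool.M5.mono (s : Fin n → ℕ) z := by
      intro s
      rw [← mul_assoc, ht]
      ring
    rw [Finset.sum_congr rfl fun s _ => h3 s, Finset.sum_add_distrib, Finset.sum_add_distrib,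
      ← Finset.mul_sum, hAv, hBv, hTv]
    unfold Ph
    rw [← hz0]
    ring
  have hnh : (d.nh K a P X ω : ℝ) = ⌊Bv⌋ + ((hz (P + X) g 0 % 2 ^ X : ℤ) : ℝ) := by
    unfold SDat.nh
    rw [← hg, hBv, hz0]
    push_cast
    rfl
  -- the height
  have hlip := hd.lip d hω hPa (d.y ω) y' (fun j => by rw [sub_self, abs_zero]; positivity) hyy
  have hlip' : |eval y' (d.G (d.L ω)) - eval (d.y ω) (d.G (d.L ω))| ≤
      |D| * n / 2 ^ (P + X) := by
    refine hlip.trans ?_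
    have h3 : ∑ j, |y' j - d.y ω j| ≤ n * (1 / 2 ^ (P + X)) := by
      refine (Finset.sum_le_sum fun j _ => hyy j).trans (le_of_eq ?_)
      rw [Finset.sum_const, Finset.card_univ, Fintype.card_fin, nsmul_eq_mul]
    have h4 : 0 ≤ ∑ j, |y' j - d.y ω j| := Finset.sum_nonneg fun j _ => abs_nonneg _
    calc D * ∑ j, |y' j - d.y ω j| ≤ |D| * ∑ j, |y' j - d.y ω j| :=
          mul_le_mul_of_nonneg_right (le_abs_self D) h4
      _ ≤ |D| * (n * (1 / 2 ^ (P + X))) := mul_le_mul_of_nonneg_left h3 (abs_nonneg D)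
      _ = |D| * n / 2 ^ (P + X) := by ring
  have hx := hd.hx ω hω
  have k1 : |2 ^ (P + X) * d.x ω - 2 ^ (P + X) * eval z g| ≤ 1 + |D| * n := by
    rw [hger, ← mul_sub, abs_mul, abs_of_pos h2]
    have h3 : |d.x ω - eval y' (d.G (d.L ω))| ≤ 1 / 2 ^ (P + X) + |D| * n / 2 ^ (P + X) := by
      have h4 : d.x ω - eval y' (d.G (d.L ω)) = (d.x ω - eval (d.y ω) (d.G (d.L ω))) -
          (eval y' (d.G (d.L ω)) - eval (d.y ω) (d.G (d.L ω))) := by ring
      rw [h4]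
      exact (abs_sub _ _).trans (add_le_add hx hlip')
    calc 2 ^ (P + X) * |d.x ω - eval y' (d.G (d.L ω))| ≤
        2 ^ (P + X) * (1 / 2 ^ (P + X) + |D| * n / 2 ^ (P + X)) :=
          mul_le_mul_of_nonneg_left h3 h2.le
      _ = 1 + |D| * n := by field_simp
  have hctx : (d.ctx a P ω).2.2 = hz P g := by
    rw [hg]
    rfl
  have key : |(d.ht (P + X) ω : ℝ) - d.nh K a P X ω - (⌊Av⌋ : ℝ)| ≤
      |D| * n + Fintype.card (Pool.M5.Mon n K) + 5 := by
    have h3 : d.ht (P + X) ω = ⌊(2 : ℝ) ^ (P + X) * d.x ω⌋ := rfl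
    rw [h3, hnh]
    rw [hval] at k1
    have a1 := Int.floor_le ((2 : ℝ) ^ (P + X) * d.x ω)
    have a2 := Int.lt_floor_add_one ((2 : ℝ) ^ (P + X) * d.x ω)
    have b1 := Int.floor_le Av
    have b2 := Int.lt_floor_add_one Av
    have c1 := Int.floor_le Bv
    have c2 := Int.lt_floor_add_one Bv
    rw [abs_le] at k1 ⊢
    constructor <;> linarith
  have e1 : |d.ht (P + X) ω - d.nh K a P X ω - ⌊Av⌋| ≤
      ((⌈|D| * n⌉₊ + (Fintype.card (Pool.M5.Mon n K)) + 5 : ℕ) : ℤ) := by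
    have h3 := Nat.le_ceil (|D| * n)
    have h4 : ((|d.ht (P + X) ω - d.nh K a P X ω - ⌊Av⌋| : ℤ) : ℝ) ≤
        (((⌈|D| * n⌉₊ + (Fintype.card (Pool.M5.Mon n K)) + 5 : ℕ) : ℤ) : ℝ) := by
      push_cast
      linarith
    exact_mod_cast h4
  have e2 : ⌊Ph K X (P + X - a) (d.ctx a P ω).2.2 (d.cel (P + X) ω)⌋ = ⌊Av⌋ := by
    rw [hctx, hAv]
  simp only
  rw [e2]
  exact e1

end Pool.OVN
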